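import Pool.Agent.Helper76.SGA.Goals
import Pool.Agent.Helper18.Ru.DetIndex

/-!
# SGA-RIX (MP_a41896_nt): index of the resultant
-/

set_option autoImplicit false

open MvPolynomial

namespace Pool.Agent.Helper13.SGA

open Pool.Agent.Helper92.Ru Pool.Agent.Helper42.SG Pool.Agent.Helper76.SGA
open Pool.Agent.Helper18.Ru (wt WGe wt_nonneg)

noncomputable section

theorem shiftP_shiftP {k : Type} [Field k] {σ : Type} (ξ : σ → k) (p : MvPolynomial σ k) :
    shiftP (fun h => - ξ h) (shiftP ξ p) = p := by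
  have h1 : (shiftP (fun h => - ξ h)).comp (shiftP ξ) = AlgHom.id k (MvPolynomial σ k) := by
    refine MvPolynomial.algHom_ext fun h => ?_
    rw [AlgHom.comp_apply, AlgHom.id_apply]
    unfold shiftP
    rw [aeval_X, map_add, aeval_X, aeval_C, C_neg, MvPolynomial.algebraMap_eq]
    ring
  exact DFunLike.congr_fun h1 p

theorem shiftP_inj {k : Type} [Field k] {σ : Type} (ξ : σ → k) :
    Function.Injective (shiftP ξ : MvPolynomial σ k → MvPolynomial σ k) :=
  Function.LeftInverse.injective (shiftP_shiftP ξ)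

theorem cmb_castSucc {m : ℕ} (e : Fin m →₀ ℕ) (a : ℕ) (h : Fin m) :
    cmb e (Finsupp.single 0 a) (Fin.castSucc h) = e h := by
  unfold cmb
  rw [Finsupp.add_apply, Finsupp.mapDomain_apply (Fin.castSucc_injective m),
    Finsupp.mapDomain_single, Finsupp.single_eq_of_ne (Fin.castSucc_lt_last h).ne, add_zero]

theorem cmb_last {m : ℕ} (e : Fin m →₀ ℕ) (a : ℕ) :
    cmb e (Finsupp.single 0 a) (Fin.last m) = a := by
  unfold cmb
  rw [Finsupp.add_apply, Finsupp.mapDomain_single, Finsupp.single_eq_same,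
    Finsupp.mapDomain_of_notMem_range, zero_add]
  rintro ⟨h, hh⟩
  exact (Fin.castSucc_lt_last h).ne hh

theorem wge_coeff {k : Type} [Field k] {m : ℕ} (hS : SEP) (r : Fin (m + 1) → ℕ)
    (τ : ℝ) (p : MvPolynomial (Fin (m + 1)) k) (hp : WGe r τ p) (a : ℕ) :
    WGe (fun h => r (Fin.castSucc h)) (τ - (a : ℝ) / (r (Fin.last m) : ℝ))
      ((sepL k m p).coeff a) := by
  intro e he
  rw [(hS k m).2.2.2.1 p a e] at he
  have h1 := hp _ he
  unfold wt at h1 ⊢
  rw [Fin.sum_univ_castSucc, cmb_last] at h1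
  have h2 : ∑ h : Fin m, ((cmb e (Finsupp.single 0 a) (Fin.castSucc h) : ℕ) : ℝ)
      / (r (Fin.castSucc h) : ℝ) = ∑ h : Fin m, (e h : ℝ) / (r (Fin.castSucc h) : ℝ) :=
    Finset.sum_congr rfl fun h _ => by rw [cmb_castSucc]
  rw [h2] at h1
  linarith

theorem wge_row {k : Type} [Field k] {m : ℕ} (hS : SEP) (r : Fin (m + 1) → ℕ)
    (hr : 1 ≤ r (Fin.last m))
    (τ : ℝ) (p : MvPolynomial (Fin (m + 1)) k) (hp : WGe r τ p) (a i : ℕ) (hai : a ≤ i) :
    WGe (fun h => r (Fin.castSucc h)) (max 0 (τ - (i : ℝ) / (r (Fin.last m) : ℝ)))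
      ((sepL k m p).coeff a) := by
  intro e he
  have h1 := wge_coeff hS r τ p hp a e he
  refine max_le (wt_nonneg _ e) (le_trans ?_ h1)
  have h2 : (0 : ℝ) < (r (Fin.last m) : ℝ) := by
    exact_mod_cast hr
  have h3 : (a : ℝ) / (r (Fin.last m) : ℝ) ≤ (i : ℝ) / (r (Fin.last m) : ℝ) :=
    div_le_div_of_nonneg_right (Nat.cast_le.2 hai) h2.le
  linarith

theorem wge_syl {k : Type} [Field k] {m N : ℕ} (hS : SEP) (r : Fin (m + 1) → ℕ)
    (hr : 1 ≤ r (Fin.last m)) (τ : ℝ) (p q : MvPolynomial (Fin (m + 1)) k)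
    (hp : WGe r τ p) (hq : WGe r τ q) (i j : Fin (N + N)) :
    WGe (fun h => r (Fin.castSucc h)) (max 0 (τ - ((i : ℕ) : ℝ) / (r (Fin.last m) : ℝ)))
      (Polynomial.sylvester (sepL k m p) (sepL k m q) N N i j) := by
  unfold Polynomial.sylvester
  rw [Matrix.of_apply]
  refine Fin.addCases (fun j₁ => ?_) (fun j₁ => ?_) j
  · rw [Fin.addCases_left]
    split_ifs
    · exact wge_row hS r hr τ q hq _ _ (Nat.sub_le _ _)
    · exact WGe.zero
  · rw [Fin.addCases_right]
    split_ifs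
    · exact wge_row hS r hr τ p hp _ _ (Nat.sub_le _ _)
    · exact WGe.zero

theorem wge_res {k : Type} [Field k] {m N : ℕ} (hS : SEP) (r : Fin (m + 1) → ℕ)
    (hr : 1 ≤ r (Fin.last m)) (τ : ℝ) (p q : MvPolynomial (Fin (m + 1)) k)
    (hp : WGe r τ p) (hq : WGe r τ q) :
    WGe (fun h => r (Fin.castSucc h))
      (∑ i ∈ Finset.range (2 * N), max 0 (τ - (i : ℝ) / (r (Fin.last m) : ℝ)))
      (Polynomial.resultant (sepL k m p) (sepL k m q) N N) := by
  have hsum : (∑ i ∈ Finset.range (2 * N), max 0 (τ - (i : ℝ) / (r (Fin.last m) : ℝ)))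
      = ∑ i : Fin (N + N), max 0 (τ - ((i : ℕ) : ℝ) / (r (Fin.last m) : ℝ)) := by
    rw [Fin.sum_univ_eq_sum_range (fun i : ℕ => max 0 (τ - (i : ℝ) / (r (Fin.last m) : ℝ)))
      (N + N), two_mul]
  rw [hsum, Polynomial.resultant, Matrix.det_apply]
  refine WGe.sum _ _ fun ρ _ => ?_
  have h0 := WGe.prod (r := fun h => r (Fin.castSucc h)) Finset.univ
    (fun j : Fin (N + N) => max 0 (τ - (((ρ j : Fin (N + N)) : ℕ) : ℝ) / (r (Fin.last m) : ℝ)))
    (fun j => Polynomial.sylvester (sepL k m p) (sepL k m q) N N (ρ j) j)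
    (fun j _ => wge_syl hS r hr τ p q hp hq (ρ j) j)
  have h1 : ∑ j : Fin (N + N), max 0 (τ - (((ρ j : Fin (N + N)) : ℕ) : ℝ) / (r (Fin.last m) : ℝ))
      = ∑ i : Fin (N + N), max 0 (τ - ((i : ℕ) : ℝ) / (r (Fin.last m) : ℝ)) :=
    Equiv.sum_comp ρ (fun i : Fin (N + N) =>
      max 0 (τ - ((i : ℕ) : ℝ) / (r (Fin.last m) : ℝ)))
  rw [h1] at h0
  rcases Int.units_eq_one_or (Equiv.Perm.sign ρ) with h | h
  · rw [h, one_smul]
    exact h0
  · rw [h, Units.smul_def, Units.val_neg, Units.val_one, neg_smul, one_smul]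
    exact h0.neg

theorem rix (h1 : SEP) (h2 : RTY) : Pool.Agent.Helper76.SGA.RIX := by
  intro k _ m N r ξ τ τ' f g hr hf hg hττ hIf hIg
  have hS := h1 k m
  have hdeg := hS.2.2.2.2.1
  have hsh := hS.2.2.2.2.2.2.1
  have hpf : WGe r τ' (shiftP ξ f) := fun e he => hττ.trans (hIf e (mem_support_iff.mpr he))
  have hpg : WGe r τ' (shiftP ξ g) := fun e he => hIg e (mem_support_iff.mpr he)
  have key := wge_res (N := N) h1 r (hr _) τ' (shiftP ξ f) (shiftP ξ g) hpf hpg
  have hinj : Function.Injective (shiftP (fun h => ξ (Fin.castSucc h)) :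
      MvPolynomial (Fin m) k →ₐ[k] MvPolynomial (Fin m) k).toRingHom := shiftP_inj _
  have hF : ((sepL k m f).map (shiftP (fun h => ξ (Fin.castSucc h))).toRingHom).natDegree = N := by
    rw [Polynomial.natDegree_map_eq_of_injective hinj, hdeg, hf]
  have hG : ((sepL k m g).map (shiftP (fun h => ξ (Fin.castSucc h))).toRingHom).natDegree ≤ N := by
    rw [Polynomial.natDegree_map_eq_of_injective hinj, hdeg]
    exact hg
  have h3 := h2 (MvPolynomial (Fin m) k)
    ((sepL k m f).map (shiftP (fun h => ξ (Fin.castSucc h))).toRingHom)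
    ((sepL k m g).map (shiftP (fun h => ξ (Fin.castSucc h))).toRingHom)
    (C (ξ (Fin.last m))) (by rw [hF]; exact hG)
  rw [hF, ← hsh, ← hsh, Polynomial.resultant_map_map] at h3
  rw [h3] at key
  intro e he
  exact key e (mem_support_iff.mp he)

end

end Pool.Agent.Helper13.SGA
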